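import Pool.Agent.K6.helper20.DM.L

set_option autoImplicit false

open Set MeasureTheory Metric
open Pool.Agent.K6.helper20.DM

namespace Pool.Agent.Results.MP_1f66ea_an.EstimateFails

/-- In every dimension `n ≥ 5` and for all `p ∈ (-1,1)` and `q > n - 1` the `C^0` estimate fails:
there is `lam > 1` such that the convex bodies `K` containing the origin with
`lam⁻¹ H^{n-1} ≤ C̃_{p,q,K} ≤ lam H^{n-1}` have unbounded support functions. -/
theorem result (n : ℕ) (hn : 5 ≤ n) (p q : ℝ) (hp : -1 < p) (hp1 : p < 1)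
    (hq : (n : ℝ) - 1 < q) :
    ∃ lam : ℝ, 1 < lam ∧ ∀ C : ℝ, ∃ K : Set (EE n), IsBody K ∧ TwoSided lam p q K ∧
      ∃ u : sphere (0 : EE n) 1, C < supp K u.1 := by
  have hn' : (5 : ℝ) ≤ n := by exact_mod_cast hn
  exact estimate_fails_general n p q hp1 (by linarith) (by linarith) (by linarith)

end Pool.Agent.Results.MP_1f66ea_an.EstimateFails
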